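import Pool.Agent.Q250.MZ.Final

set_option autoImplicit false

/-!
MP_e23efd_co, Q1, full answer (yes): over `ZMod (p ^ r)`, with `m = p ^ s`, the only `m`-zero free
sequences of length `m * p ^ r - 1` are the constant sequences of a unit.
-/

namespace Pool.Agent.Results.MP_e23efd_co.ExtremalConstant

/-- `S` is `m`-zero free: the elementary symmetric sum of degree `m` of every subsequence of
length at least `m` is not zero. `Multiset.esymm S' m` is the sum of the products of the
`m`-subsequences of `S'`. -/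
def ZeroFree {n : ℕ} (m : ℕ) (S : Multiset (ZMod n)) : Prop :=
  ∀ S' ≤ S, m ≤ Multiset.card S' → Multiset.esymm S' m ≠ 0

theorem result (p : ℕ) (hp : p.Prime) (r s : ℕ) (hr : 1 ≤ r) (S : Multiset (ZMod (p ^ r)))
    (hlen : Multiset.card S = p ^ s * p ^ r - 1) (hS : ZeroFree (p ^ s) S) :
    ∃ a : ZMod (p ^ r), IsUnit a ∧ S = Multiset.replicate (p ^ s * p ^ r - 1) a := by
  classical
  have : Fact p.Prime := ⟨hp⟩
  have : NeZero (p ^ r) := ⟨pow_ne_zero _ hp.ne_zero⟩
  obtain ⟨l, rfl⟩ := Quot.exists_rep S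
  change Multiset.card (l : Multiset (ZMod (p ^ r))) = _ at hlen
  change ZeroFree (p ^ s) (l : Multiset (ZMod (p ^ r))) at hS
  change ∃ a : ZMod (p ^ r), IsUnit a ∧ (l : Multiset (ZMod (p ^ r))) = _
  have hl : (Finset.univ : Finset (Fin l.length)).val.map l.get = (l : Multiset (ZMod (p ^ r))) := by
    rw [Fin.univ_val_map, List.ofFn_get]
  have hfree : ∀ U : Finset (Fin l.length), p ^ s ≤ U.card →
      ∑ V ∈ U.powersetCard (p ^ s), ∏ i ∈ V, l.get i ≠ 0 := by
    intro U hU
    have h1 := hS (U.val.map l.get) (by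
      rw [← hl]
      exact Multiset.map_le_map (Finset.val_le_iff.mpr (Finset.subset_univ U)))
      (by rw [Multiset.card_map]; exact hU)
    rwa [Finset.esymm_map_val] at h1
  rw [Multiset.coe_card] at hlen
  have hcard : Fintype.card (Fin l.length) = p ^ s * p ^ r - 1 := by rw [Fintype.card_fin, hlen]
  have key : ∃ c : ZMod (p ^ r), IsUnit c ∧ ∀ i, l.get i = c := by
    rcases Nat.eq_zero_or_pos s with hs | hs
    · subst hs
      refine Pool.Agent.Q250.MZ.main_zero hr l.get (fun U hU => ?_) (by simpa using hcard)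
      have h1 := hfree U (by simpa using hU)
      rw [pow_zero, Finset.powersetCard_one] at h1
      simpa using h1
    · exact Pool.Agent.Q250.MZ.main_pos hr hs l.get hfree hcard
  obtain ⟨c, hc, hall⟩ := key
  refine ⟨c, hc, ?_⟩
  rw [Multiset.eq_replicate]
  refine ⟨by rw [Multiset.coe_card, hlen], fun b hb => ?_⟩
  rw [Multiset.mem_coe] at hb
  obtain ⟨i, rfl⟩ := List.get_of_mem hb
  exact hall i

end Pool.Agent.Results.MP_e23efd_co.ExtremalConstant
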